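import Mathlib

/-!
# Release of a block: definitions

`H` a real symmetric matrix on a finite set of sites `X` (hopping, potential, real parts of the
gauge), `κ > 0` the absorption, `G = (H - i κ)⁻¹`. A block `F` is released: the rows of `H` and `κ`
at the sites of `F` are changed arbitrarily, the others are kept.
-/

set_option autoImplicit false

open scoped BigOperators ComplexConjugate

noncomputable section

namespace Pool.Agent.ANR

variable {X : Type} [Fintype X] [DecidableEq X]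

/-- `(H - i κ) ψ` -/
def opv (H : Matrix X X ℝ) (κ : X → ℝ) (ψ : X → ℂ) (x : X) : ℂ :=
  ∑ y, (H x y : ℂ) * ψ y - Complex.I * (κ x : ℂ) * ψ x

/-- `G = (H - i κ)⁻¹` -/
def Gr (H : Matrix X X ℝ) (κ : X → ℝ) : Matrix X X ℂ :=
  (H.map (fun t : ℝ => (t : ℂ)) - Matrix.diagonal fun x => Complex.I * (κ x : ℂ))⁻¹

/-- a network: symmetric, with positive absorption -/
structure Net (H : Matrix X X ℝ) (κ : X → ℝ) : Prop where
  sym : ∀ x y, H x y = H y x
  pos : ∀ x, 0 < κ x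

/-- the same rows off `F` -/
def Off (H : Matrix X X ℝ) (κ : X → ℝ) (H' : Matrix X X ℝ) (κ' : X → ℝ) (F : Finset X) : Prop :=
  ∀ x, x ∉ F → κ' x = κ x ∧ ∀ y, H' x y = H x y

/-- `ψ` solves the equation off `F` -/
def Sol (H : Matrix X X ℝ) (κ : X → ℝ) (F : Finset X) (ψ : X → ℂ) : Prop :=
  ∀ z, z ∉ F → opv H κ ψ z = 0

/-- the flux of `ψ` out of `F`: the absorption off `F` -/
def Q (κ : X → ℝ) (F : Finset X) (ψ : X → ℂ) : ℝ := ∑ z ∈ Fᶜ, κ z * ‖ψ z‖ ^ 2

/-- leverage: every field with its sources in `F` has at `x` intensity at most `L` times its flux -/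
def Lev (H : Matrix X X ℝ) (κ : X → ℝ) (F : Finset X) (x : X) (L : ℝ) : Prop :=
  ∀ ψ : X → ℂ, Sol H κ F ψ → ‖ψ x‖ ^ 2 ≤ L * Q κ F ψ

/-- the Dirichlet form of the sites of `A`: conductances `κ_x κ_y |G_xy|²` -/
def cE (G : Matrix X X ℂ) (κ : X → ℝ) (A : Finset X) (f : X → ℝ) : ℝ :=
  (1 / 2) * ∑ x ∈ A, ∑ y ∈ A, κ x * κ y * ‖G x y‖ ^ 2 * (f x - f y) ^ 2

/-- the flux from `x` to `F`: `∑_(b ∈ F) κ_b |G_xb|²` -/
def fl (G : Matrix X X ℂ) (κ : X → ℝ) (F : Finset X) (x : X) : ℝ := ∑ b ∈ F, κ b * ‖G x b‖ ^ 2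

/-- the part of the change of the form which comes from pairs not inside `B` -/
def tl (G G' : Matrix X X ℂ) (κ : X → ℝ) (A B : Finset X) (f : X → ℝ) : ℝ :=
  ∑ x ∈ A, ∑ y ∈ A, if x ∈ B ∧ y ∈ B then 0 else
    κ x * κ y * (‖G x y‖ * ‖G x y - G' x y‖ + ‖G x y - G' x y‖ ^ 2) * (f x - f y) ^ 2

end Pool.Agent.ANR
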