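import Pool.Agent.ANR.Defs

/-!
# Release of a cluster: statements, part 2

A finite change `G → G'` (kills and releases together) measured by `m x = ∑_y κ_y |G_xy - G'_xy|²`.
-/

set_option autoImplicit false

open scoped BigOperators ComplexConjugate

noncomputable section

namespace Pool.Agent.ANR

/-- FRX: the change of the form of the nodes. Proof: for a pair in `B`:
`||G'|² - |G|²| ≤ 2 |G| |Δ| + |Δ|² ≤ ε |G|² + (2/ε) |Δ|²` (`ε ≤ 1`), and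
`(1/ε) ∑_(x, y ∈ B) κ κ |Δ_xy|² (f x - f y)² ≤ (2/ε) ∑_(x, y ∈ B) κ κ |Δ_xy|² ((f x - c)² + (f y - c)²)
≤ (4/ε) ∑ κ x m x (f x - c)²` (symmetry of `Δ`). The other pairs are in `tl`. (Edit of
Helper44_ANR/FRM.lean.) -/
def FrxStmt : Prop :=
  ∀ (X : Type) [Fintype X] [DecidableEq X] (G G' : Matrix X X ℂ) (κ : X → ℝ) (A B : Finset X)
    (m f : X → ℝ) (c ε : ℝ), (∀ x y, G x y = G y x) → (∀ x y, G' x y = G' y x) →
      (∀ x ∈ A, 0 ≤ κ x) → B ⊆ A → 0 < ε → ε ≤ 1 →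
      (∀ x ∈ B, ∑ y ∈ B, κ y * ‖G x y - G' x y‖ ^ 2 ≤ m x) →
      |cE G' κ A f - cE G κ A f| ≤ ε * cE G κ B f + 4 / ε * ∑ x ∈ B, κ x * m x * (f x - c) ^ 2 +
        tl G G' κ A B f

/-- RKB (uses LV2, LVS): the total mass of the change is at most four times the number of changed
sites. Proof: leverages from LVS; LV2 (2): `∑_(z ∉ F) κ_z |Δ_zy|² ≤ 4 L_y`; sum over `y` with `κ_y`. -/
def RkbStmt : Prop :=
  ∀ (X : Type) [Fintype X] [DecidableEq X] (H H' : Matrix X X ℝ) (κ κ' : X → ℝ) (F : Finset X),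
    Net H κ → Net H' κ' → Off H κ H' κ' F →
      ∑ x ∈ Fᶜ, ∑ y ∈ Fᶜ, κ x * κ y * ‖Gr H κ x y - Gr H' κ' x y‖ ^ 2 ≤ 4 * F.card

/-- FLR: the flux to a set `P`. Proof: Minkowski in `ℓ²(P, κ)`
(`Real.sqrt (∑ κ |u + v|²) ≤ Real.sqrt (∑ κ |u|²) + Real.sqrt (∑ κ |v|²)`; symmetric in `G`, `G'`). -/
def FlrStmt : Prop :=
  ∀ (X : Type) [Fintype X] [DecidableEq X] (G G' : Matrix X X ℂ) (κ : X → ℝ) (P : Finset X)
    (x : X) (m : ℝ), (∀ y ∈ P, 0 ≤ κ y) → ∑ y ∈ P, κ y * ‖G x y - G' x y‖ ^ 2 ≤ m →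
      Real.sqrt (fl G' κ P x) ≤ Real.sqrt (fl G κ P x) + Real.sqrt m

/-- LMR: the fourth powers. Proof: Minkowski in `ℓ⁴(R)` (`Real.Lp_add_le`) and
`∑ |Δ|⁴ ≤ u² ∑ |Δ|² ≤ u² m / k`. -/
def LmrStmt : Prop :=
  ∀ (X : Type) [Fintype X] [DecidableEq X] (G G' : Matrix X X ℂ) (κ : X → ℝ) (R : Finset X)
    (x : X) (u m k : ℝ), 0 < k → (∀ y ∈ R, k ≤ κ y) → 0 ≤ u → (∀ y ∈ R, ‖G x y - G' x y‖ ≤ u) →
      ∑ y ∈ R, κ y * ‖G x y - G' x y‖ ^ 2 ≤ m →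
      (∑ y ∈ R, ‖G' x y‖ ^ 4) ^ ((1 : ℝ) / 4) ≤
        (∑ y ∈ R, ‖G x y‖ ^ 4) ^ ((1 : ℝ) / 4) + (u ^ 2 * m / k) ^ ((1 : ℝ) / 4)

/-- THD: sums of squares. Proof: `|a² - b²| ≤ |a - b| (2 |a| + |a - b|)` for `a = G_xy`, `b = G'_xy`
(and for their real parts), Cauchy-Schwarz with the weights `κ`. -/
def ThdStmt : Prop :=
  ∀ (X : Type) [Fintype X] [DecidableEq X] (G G' : Matrix X X ℂ) (κ : X → ℝ) (P : Finset X)
    (x : X) (g m : ℝ), (∀ y ∈ P, 0 ≤ κ y) → ∑ y ∈ P, κ y * ‖G x y‖ ^ 2 ≤ g →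
      ∑ y ∈ P, κ y * ‖G x y - G' x y‖ ^ 2 ≤ m →
      ‖∑ y ∈ P, (κ y : ℂ) * G x y ^ 2 - ∑ y ∈ P, (κ y : ℂ) * G' x y ^ 2‖ ≤
          2 * Real.sqrt (g * m) + m ∧
      |∑ y ∈ P, κ y * (G x y).re ^ 2 - ∑ y ∈ P, κ y * (G' x y).re ^ 2| ≤
          2 * Real.sqrt (g * m) + m ∧
      |∑ y ∈ P, κ y * ‖G x y‖ ^ 2 - ∑ y ∈ P, κ y * ‖G' x y‖ ^ 2| ≤ 2 * Real.sqrt (g * m) + m

/-- REV (uses LV2, LVI): one release after a history. `Go` is the Green function at the start of the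
attempt; the changes add. Proof: triangle inequality and LV2 (1), (2) (Minkowski in `ℓ²`). -/
def RevStmt : Prop :=
  ∀ (X : Type) [Fintype X] [DecidableEq X] (H H' : Matrix X X ℝ) (κ κ' : X → ℝ) (b : X)
    (A : Finset X) (L : X → ℝ) (Go : Matrix X X ℂ), Net H κ → Net H' κ' →
      Off H κ H' κ' {b} → b ∉ A → (∀ x ∈ A, 0 ≤ L x ∧ Lev H κ {b} x (L x)) →
      ∀ x ∈ A, (∀ y ∈ A, ‖Gr H' κ' x y - Go x y‖ ≤ ‖Gr H κ x y - Go x y‖ +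
          2 * Real.sqrt (L x * L y)) ∧
        Real.sqrt (∑ y ∈ A, κ y * ‖Gr H' κ' x y - Go x y‖ ^ 2) ≤
          Real.sqrt (∑ y ∈ A, κ y * ‖Gr H κ x y - Go x y‖ ^ 2) + 2 * Real.sqrt (L x)

end Pool.Agent.ANR
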