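import Pool.Agent.ANR.Defs

/-!
# Release of a block: statements

MAIN POINT. `G` and `G'` differ by an arbitrary change at the sites of the block `F` (any real
potential, any absorption). If every field with sources in `F` has at the outer sites intensity at most
`δ` times its flux (`Lev`; this condition does not see what is inside `F`), then
`|G_xy - G'_xy| ≤ 2 δ` at all outer sites, the walk from `y` hits `F` with probability at most `δ`, and
the Dirichlet form of the outer sites changes only by `∑ κ_x L_x (f_x - c)²`.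
-/

set_option autoImplicit false

open scoped BigOperators ComplexConjugate

noncomputable section

namespace Pool.Agent.ANR

/-- GRN: Green's identities. Proof: (1) the terms with `H` by symmetry and `Finset.sum_comm`, the terms
with `κ` agree. (2) the part with `H` is real (it is equal to its conjugate, by symmetry), the part with
`κ` is `- i ∑ κ |ψ|²`. -/
def GrnStmt : Prop :=
  ∀ (X : Type) [Fintype X] [DecidableEq X] (H : Matrix X X ℝ) (κ : X → ℝ), Net H κ →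
    (∀ φ ψ : X → ℂ, ∑ x, φ x * opv H κ ψ x = ∑ x, ψ x * opv H κ φ x) ∧
    ∀ ψ : X → ℂ, (∑ x, conj (ψ x) * opv H κ ψ x).im = - ∑ x, κ x * ‖ψ x‖ ^ 2

/-- DIR (uses GRN): the Dirichlet problem, for every `F`. Proof: the linear map `B ψ = ψ` on `F`,
`B ψ = opv H κ ψ` off `F` is injective (if `B ψ = 0`, GRN (2): all terms of the left side vanish, so
`∑ κ |ψ|² = 0`), hence surjective (`LinearMap.injective_iff_surjective` on `X → ℂ`). -/
def DirStmt : Prop :=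
  ∀ (X : Type) [Fintype X] [DecidableEq X] (H : Matrix X X ℝ) (κ : X → ℝ) (F : Finset X),
    Net H κ → ∀ f h : X → ℂ,
      ∃! ψ : X → ℂ, (∀ b ∈ F, ψ b = f b) ∧ ∀ x, x ∉ F → opv H κ ψ x = h x

/-- GEQ (uses DIR, GRN): the Green function. Proof: DIR with `F = ∅`: the matrix is invertible
(`Matrix.mulVec` with it is `opv H κ`), so `opv` of the column `y` of `Gr` is `δ_y`. Symmetry: GRN (1)
for the columns `x` and `y`. Ward: GRN (2) for the column `y`: `conj (G y y)` has the imaginary part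
`- ∑ κ |G_zy|²`. The last two: `κ y ‖G y y‖² ≤ (G y y).im ≤ ‖G y y‖`;
`κ x ‖G x y‖² ≤ (G y y).im`. -/
def GeqStmt : Prop :=
  ∀ (X : Type) [Fintype X] [DecidableEq X] (H : Matrix X X ℝ) (κ : X → ℝ), Net H κ →
    (∀ x y, opv H κ (fun z => Gr H κ z y) x = if x = y then 1 else 0) ∧
    (∀ x y, Gr H κ x y = Gr H κ y x) ∧
    (∀ y, ∑ z, κ z * ‖Gr H κ z y‖ ^ 2 = (Gr H κ y y).im) ∧
    (∀ y, κ y * ‖Gr H κ y y‖ ≤ 1) ∧ ∀ x y, κ x * κ y * ‖Gr H κ x y‖ ^ 2 ≤ 1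

/-- QSY (uses GRN): conjugate sources have the same flux. Proof: `Off F` both solve, so GRN (2) for `ψ`
reads `im ∑_(b ∈ F) conj (ψ b) (opv ψ b) = - Q ψ - ∑_(b ∈ F) κ b |ψ b|²`, that is, with `φ b = conj (ψ b)`
on `F`, `im ∑_(b ∈ F) φ b (opv ψ b) = ..`, and the same for `φ`: `im ∑_(b ∈ F) ψ b (opv φ b) = - Q φ - ..`.
The two left sides are equal by GRN (1). -/
def QsyStmt : Prop :=
  ∀ (X : Type) [Fintype X] [DecidableEq X] (H : Matrix X X ℝ) (κ : X → ℝ) (F : Finset X),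
    Net H κ → ∀ φ ψ : X → ℂ, Sol H κ F φ → Sol H κ F ψ → (∀ b ∈ F, φ b = conj (ψ b)) →
      Q κ F φ = Q κ F ψ

/-- LV1 (uses GRN, DIR, QSY). `g` is a column of a Green function with ANY rows in `F`, `g₀` the
Dirichlet solution. Proof: `ψ = g - g₀` solves off `F`, `ψ = g` on `F`. GRN (2) for `ψ` and `(H', κ')`:
`im ∑_(b ∈ F) conj (g b) (opv' ψ b) = - Q ψ - ∑_(b ∈ F) κ' b |g b|²`, and `opv' g b = 0`, so
`opv' ψ b = - opv' g₀ b = - S b`, `S b = ∑_y H' b y g₀ y` (real rows, `g₀ b = 0`; the diagonal entries of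
`H'` in `F × F` do not matter because `g₀ = 0` on `F`; `H' b y = H' y b = H y b` for `y ∉ F`). Let `φ` be
the solution off `F` with `φ b = conj (g b)` on `F` (DIR). GRN (1) for `φ` and `g₀` (with `H`, `κ`):
`∑_(b ∈ F) φ b S b + φ y = 0` (`opv g₀ z = δ_zy` off `F`). Hence
`Q ψ + ∑ κ' b |g b|² = im ∑_(b ∈ F) conj (g b) S b = - im (φ y) ≤ |φ y| ≤ (L Q φ)^(1/2) = (L Q ψ)^(1/2)`
(QSY). So `Q ψ ≤ L`, and then the left side is at most `L`. -/
def Lv1Stmt : Prop :=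
  ∀ (X : Type) [Fintype X] [DecidableEq X] (H H' : Matrix X X ℝ) (κ κ' : X → ℝ) (F : Finset X)
    (y : X) (L : ℝ) (g g₀ : X → ℂ), Net H κ → Net H' κ' → Off H κ H' κ' F → y ∉ F → 0 ≤ L →
      Lev H κ F y L → (∀ x, opv H' κ' g x = if x = y then 1 else 0) → (∀ b ∈ F, g₀ b = 0) →
      (∀ x, x ∉ F → opv H κ g₀ x = if x = y then 1 else 0) →
      Q κ F (fun z => g z - g₀ z) ≤ L ∧ ∑ b ∈ F, κ' b * ‖g b‖ ^ 2 ≤ L

/-- LV2 (uses LV1, DIR, GEQ): THE RELEASE. Proof: `g₀` from DIR. LV1 for the column `y` of `Gr H κ`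
(with `H' = H`, `κ' = κ`) and of `Gr H' κ'`; `Q` is the square of a seminorm, so the difference has
`Q ≤ 4 L y`; it solves off `F`, so `Lev` at `x` gives `|G_xy - G'_xy|² ≤ L x * 4 L y`. -/
def Lv2Stmt : Prop :=
  ∀ (X : Type) [Fintype X] [DecidableEq X] (H H' : Matrix X X ℝ) (κ κ' : X → ℝ) (F : Finset X)
    (x y : X) (Lx Ly : ℝ), Net H κ → Net H' κ' → Off H κ H' κ' F → x ∉ F → y ∉ F → 0 ≤ Lx →
      0 ≤ Ly → Lev H κ F x Lx → Lev H κ F y Ly →
      ‖Gr H κ x y - Gr H' κ' x y‖ ^ 2 ≤ 4 * Lx * Ly ∧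
      ∑ z ∈ Fᶜ, κ z * ‖Gr H κ z y - Gr H' κ' z y‖ ^ 2 ≤ 4 * Ly ∧
      ∑ b ∈ F, κ b * ‖Gr H κ b y‖ ^ 2 ≤ Ly ∧ ∑ b ∈ F, κ' b * ‖Gr H' κ' b y‖ ^ 2 ≤ Ly

/-- LV0 (uses GEQ, DIR): one site. Proof: a solution `ψ` off `b` is `c` times the column `b`
(`c = opv H κ ψ b`, uniqueness from DIR with `F = ∅`). If the sum vanishes, all `G_zb`, `z ≠ b`, are 0. -/
def Lv0Stmt : Prop :=
  ∀ (X : Type) [Fintype X] [DecidableEq X] (H : Matrix X X ℝ) (κ : X → ℝ) (b x : X), Net H κ →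
    x ≠ b → Lev H κ {b} x (‖Gr H κ x b‖ ^ 2 / ∑ z ∈ ({b} : Finset X)ᶜ, κ z * ‖Gr H κ z b‖ ^ 2)

/-- LVS: leverages exist and their sum is at most the number of sites. Proof: `κ > 0`, so
`L = 1 / κ x` is always allowed. For the sum: `Q` is a positive semidefinite Hermitian form on the
finite dimensional space `Sol` (dimension `|F|` by DIR, coordinates `ψ b`, `b ∈ F`); if it is definite
take a `Q`-orthonormal basis `ψ_1..ψ_n`, `n = |F|`, `L x = ∑ |ψ_i x|²` (Cauchy-Schwarz), and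
`∑_(x ∉ F) κ x L x = ∑ Q ψ_i = n`. In general the null space of `Q` consists of fields which vanish off
`F`, and one works on a complement. (Alternatively: Gram-Schmidt by induction on the dimension of a
subspace of `Sol`.) -/
def LvsStmt : Prop :=
  ∀ (X : Type) [Fintype X] [DecidableEq X] (H : Matrix X X ℝ) (κ : X → ℝ) (F : Finset X), Net H κ →
    ∃ L : X → ℝ, (∀ x, 0 ≤ L x) ∧ (∀ x, x ∉ F → Lev H κ F x (L x)) ∧
      ∑ x ∈ Fᶜ, κ x * L x ≤ F.card

/-- TAL (uses DIR): decay of the leverages. `O'` is the far region, `S` a set of sites off `F` and off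
`O'` which contains all sites connected to `O'`, with absorption at least `κ₀`; `u` is the column (or
row) `x` of the Green function of `O'`. Proof: let `ψ` solve off `F`. Sum of
`u z * opv ψ z = 0` over `z ∈ O'` (`O'` is disjoint from `F`); as `H` is symmetric and `opv u z = δ_zx` in
`O'`, `u = 0` off `O'`: `ψ x = - ∑_(y ∈ S) (∑_(z ∈ O') H z y u z) ψ y`. Cauchy-Schwarz and
`∑_(y ∈ S) |ψ y|² ≤ Q ψ / κ₀`. -/
def TalStmt : Prop :=
  ∀ (X : Type) [Fintype X] [DecidableEq X] (H : Matrix X X ℝ) (κ : X → ℝ) (F O S : Finset X)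
    (x : X) (κ₀ : ℝ) (u : X → ℂ), Net H κ → Disjoint O F → Disjoint S F → x ∈ O → 0 < κ₀ →
      (∀ y ∈ S, κ₀ ≤ κ y) → (∀ z ∈ O, ∀ y, y ∉ O → H z y ≠ 0 → y ∈ S) →
      (∀ z, z ∉ O → u z = 0) → (∀ z ∈ O, opv H κ u z = if z = x then 1 else 0) →
      Lev H κ F x (κ₀⁻¹ * ∑ y ∈ S, ‖∑ z ∈ O, (H z y : ℂ) * u z‖ ^ 2)

/-- YHH (uses LV2, GEQ): the threshold of 3281. Proof: `|a² - b²| ≤ |a - b| (2 |a| + |a - b|)`,
Cauchy-Schwarz with the weights `κ`, `∑_z κ |G_zy|² = im G_yy`. -/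
def YhhStmt : Prop :=
  ∀ (X : Type) [Fintype X] [DecidableEq X] (H H' : Matrix X X ℝ) (κ κ' : X → ℝ) (F : Finset X)
    (y : X) (L : ℝ), Net H κ → Net H' κ' → Off H κ H' κ' F → y ∉ F → 0 ≤ L → Lev H κ F y L →
      ‖∑ z ∈ Fᶜ, (κ z : ℂ) * Gr H κ z y ^ 2 - ∑ z ∈ Fᶜ, (κ z : ℂ) * Gr H' κ' z y ^ 2‖ ≤
        4 * Real.sqrt (L * (Gr H κ y y).im) + 4 * L

/-- FRM (uses LV2, GEQ): the change of the form of the outer sites. Proof: for a pair in `B`:
`||G'|² - |G|²| ≤ 2 |G| |Δ| + |Δ|² ≤ ε |G|² + (2/ε) |Δ|²` (`ε ≤ 1`), and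
`∑_(x, y ∈ B) κ κ |Δ_xy|² (f x - f y)² ≤ 4 ∑_(x ∈ B) κ x (f x - c)² ∑_y κ y |Δ_xy|² ≤ 16 ∑ κ x L x (f x - c)²`
(symmetry of `Δ`, LV2 (2)). The other pairs are in `tl`. -/
def FrmStmt : Prop :=
  ∀ (X : Type) [Fintype X] [DecidableEq X] (H H' : Matrix X X ℝ) (κ κ' : X → ℝ)
    (F A B : Finset X) (L f : X → ℝ) (c ε : ℝ), Net H κ → Net H' κ' → Off H κ H' κ' F →
      Disjoint A F → B ⊆ A → 0 < ε → ε ≤ 1 → (∀ x ∈ A, 0 ≤ L x ∧ Lev H κ F x (L x)) →
      |cE (Gr H' κ') κ A f - cE (Gr H κ) κ A f| ≤ ε * cE (Gr H κ) κ B f +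
        16 / ε * ∑ x ∈ B, κ x * L x * (f x - c) ^ 2 + tl (Gr H κ) (Gr H' κ') κ A B f

/-- CUT: the form with `F` as nodes and the cut form. Proof: the sum over `A ∪ F` splits; the pairs
inside `F` vanish, the mixed pairs occur twice. -/
def CutStmt : Prop :=
  ∀ (X : Type) [Fintype X] [DecidableEq X] (G : Matrix X X ℂ) (κ : X → ℝ) (A F : Finset X)
    (f : X → ℝ) (c : ℝ), (∀ x y, G x y = G y x) → Disjoint A F → (∀ b ∈ F, f b = c) →
      cE G κ (A ∪ F) f = cE G κ A f + ∑ x ∈ A, κ x * fl G κ F x * (f x - c) ^ 2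

/-- LVI: the leverage does not see what is inside `F`. Proof: for a site off `F` the operators agree,
and `Q` only contains `κ` off `F`. -/
def LviStmt : Prop :=
  ∀ (X : Type) [Fintype X] [DecidableEq X] (H H' : Matrix X X ℝ) (κ κ' : X → ℝ) (F : Finset X)
    (x : X) (L : ℝ), Off H κ H' κ' F → Lev H κ F x L → Lev H' κ' F x L

end Pool.Agent.ANR
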